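import Mathlib
import Pool.Agent.R206.Horse.Trop

namespace Pool.Agent.Results.MP_f96ee4_an.NonPeriodic

open Filter

/-- `x n` is the term with index `n - 2` of the problem. -/
def IsSol (α δ C : ℝ) (x : ℕ → ℝ) : Prop :=
  0 < x 0 ∧ 0 < x 1 ∧ 0 < x 2 ∧
    ∀ n, x (n + 3) = (α + x (n + 2) + δ * x n) / (x (n + 2) + C * x (n + 1))

/-- the positive equilibrium -/
noncomputable def xbar (α δ C : ℝ) : ℝ :=
  (1 + δ + Real.sqrt ((δ + 1) ^ 2 + 4 * α * (1 + C))) / (2 * (1 + C))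

/-- bounded, not convergent to the equilibrium, not convergent to any periodic sequence -/
def Wild (α δ C : ℝ) (x : ℕ → ℝ) : Prop :=
  IsSol α δ C x ∧ (∃ M, ∀ n, x n ≤ M) ∧
    (¬ Tendsto x atTop (nhds (xbar α δ C))) ∧
    ∀ p : ℕ → ℝ, (∃ k : ℕ, 1 ≤ k ∧ ∀ n, p (n + k) = p n) →
      ¬ Tendsto (fun n => x n - p n) atTop (nhds 0)

theorem family {g α δ C : ℝ} (hg : 20000 ≤ g) (hα0 : 0 < α) (hα1 : α ≤ 1)
    (hδ0 : Real.exp (3 * g) ≤ δ) (hδ1 : δ ≤ 2 * Real.exp (3 * g))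
    (hC0 : Real.exp (4 * g) ≤ C) (hC1 : C ≤ 2 * Real.exp (4 * g)) :
    ∃ x : ℕ → ℝ, Wild α δ C x := by
  have hP : Pool.Agent.R206.Horse.Par g α 0 δ C 0 :=
    ⟨hg, hα0.le, hα1, le_rfl, (Real.exp_pos _).le, hδ0, hδ1, hC0, hC1, le_rfl,
      (Real.exp_pos _).le⟩
  obtain ⟨x, h1, h2, h3, h4⟩ := Pool.Agent.R206.Horse.exists_nonperiodic hP
  refine ⟨x, ⟨h1 0, h1 1, h1 2, ?_⟩, ⟨_, h3⟩, ?_, ?_⟩
  · intro n
    rw [h2 n]
    congr 1 <;> ring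
  · intro hcon
    refine h4 (fun _ => xbar α δ C) 1 one_pos (fun _ => rfl) ?_
    have := hcon.sub_const (xbar α δ C)
    rwa [sub_self] at this
  · rintro p ⟨k, hk, hp⟩
    exact h4 p k hk hp

/-- Affirmative answer to Q1, together with an explicit open region of parameters. -/
theorem result :
    (∃ α δ C : ℝ, 0 < α ∧ 0 < δ ∧ 0 < C ∧ ∃ x : ℕ → ℝ, Wild α δ C x) ∧
    ∀ g α δ C : ℝ, 20000 ≤ g → 0 < α → α ≤ 1 → Real.exp (3 * g) ≤ δ →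
      δ ≤ 2 * Real.exp (3 * g) → Real.exp (4 * g) ≤ C → C ≤ 2 * Real.exp (4 * g) →
      ∃ x : ℕ → ℝ, Wild α δ C x := by
  constructor
  · refine ⟨1, Real.exp (3 * 20000), Real.exp (4 * 20000), one_pos, Real.exp_pos _,
      Real.exp_pos _, ?_⟩
    have h1 := Real.exp_pos (3 * 20000)
    have h2 := Real.exp_pos (4 * 20000)
    exact family le_rfl one_pos le_rfl le_rfl (by linarith) le_rfl (by linarith)
  · intro g α δ C hg hα0 hα1 hδ0 hδ1 hC0 hC1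
    exact family hg hα0 hα1 hδ0 hδ1 hC0 hC1

end Pool.Agent.Results.MP_f96ee4_an.NonPeriodic
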